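import Pool.Agent.Run7.h359.Evp

/-!
# The Bloch–Kato inequality for Hecke characters of `ℚ(√-7)` of all even weights, `n = 1`, `p = 2`

Let `E_M` be the quadratic twist by `M` of `X_0(49)`, an elliptic curve over `ℚ` with complex
multiplication by `ℤ[w]`, and `ψ_M` its Hecke character over `F = K = ℚ(√-7) = ℚ(w)`, `w² = w - 2`. For
`k > 0` the Hecke characters `ψ_M^k ψ̄_M^(1-k)` and `ψ_M^(1-k) ψ̄_M^k`, normalized, are two conjugate
automorphic representations `π` of `GL_1` over `K` with `π^∨ = π^c |·|^(-1)` whose `L`-function is the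
one of the newform of weight `2k` of `ψ_M^(2k-1)`: `L(s, π) = L(ψ_M^(2k-1), s + k)`. The group
`Gal(ℚ̄/K)` acts on the `2`-adic Tate module of `E_M` by two characters `κ`, `κ'`, and the `2`-adic
realizations of the `π` are `ℚ_2(κ^k κ'^(1-k))` and `ℚ_2(κ^(1-k) κ'^k)`.

The class consists of the squarefree `M = 1 mod 8` with all prime factors `1 mod 4`.

Theorem: if `M` is in the class, `E_M(ℚ)` is finite and `Ш(E_M/ℚ)` has no element of order two (conditions
on the weight `2` only), then for **all even** `k > 0`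

  `dim H¹_f(K, ρ_π) ≤ 1 ≤ ord_{s=0} L(s, π) < ∞`,  `H⁰(K, ρ_π) = 0`.

This holds for at least `a X / √(log X)` of the `M ≤ X` of the class, `a > 0`, the order of magnitude of
the class (Landau). By the sign statement for `n = 1` (Rubin, see the problem: `2` splits in `K`, `π` is
unramified above `2`, and the weights `k`, `1 - k` avoid `0` and `1`) the group `H¹_f` is not zero; so for
these `π` its dimension is one, and the conjecture is reduced to `L'(0, π) ≠ 0`. Together with the file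
`OddWeightsFormula` (both sides zero for odd `k`) the inequality `dim H¹_f ≤ ord` holds for `ψ_M^{2k-1}`
for **all** `k > 0`.

New: the zeros of the `L`-functions. They are forced by the functional equations, which are proved
with their signs (`Run7/h359/Fes`): the sign in weight `2k` is `(-1)^(k-1)` times the one in weight
`2`, and the latter is `1` as the value in weight `2` is not zero. The Selmer groups were bounded for a
subclass in starting files; this is extended to the class.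
-/

set_option autoImplicit false

namespace Pool.Agent.Results.MP_7c08ba_nt.EvenWeightsInequality

open Pool.Agent.Results.MP_787500_nt.AllWeightsMultiquadraticX49
open NumberField IsDedekindDomain WeierstrassCurve Filter Topology
open scoped Classical

/-- `α ^ n + β ^ n`, where `α + β = a` and `α β = e`. -/
def powerSum (a e : ℤ) : ℕ → ℤ
  | 0 => 2
  | 1 => a
  | n + 2 => a * powerSum a e (n + 1) - e * powerSum a e n

/-- The local polynomial `1 - a T + e T² = (1 - α T) (1 - β T)` of the curve `W` at the place `v`: at the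
places of good reduction `e` is the norm `q` of `v` and `a = q + 1 - #W(k_v)`, and the polynomial is `1` at
the places of additive reduction. -/
noncomputable def localPoly (W : WeierstrassCurve ℚ) (v : HeightOneSpectrum (𝓞 ℚ)) : Polynomial ℤ :=
  (W.baseChange (v.adicCompletion ℚ)).localPolynomial (v.adicCompletionIntegers ℚ)

/-- The Euler factor `1 / ((1 - α ^ n q^{-s}) (1 - β ^ n q^{-s}))`, where `(1 - α T) (1 - β T)` is the
local polynomial of the curve `W` at the place `v` of norm `q`. -/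
noncomputable def factor (W : WeierstrassCurve ℚ) (n : ℕ) (s : ℂ) (v : HeightOneSpectrum (𝓞 ℚ)) : ℂ :=
  (1 - (powerSum (-(localPoly W v).coeff 1) ((localPoly W v).coeff 2) n : ℂ) *
      (Ideal.absNorm v.asIdeal : ℂ) ^ (-s) +
    ((localPoly W v).coeff 2 : ℂ) ^ n * ((Ideal.absNorm v.asIdeal : ℂ) ^ (-s)) ^ 2)⁻¹

/-- `Λ` is the entire continuation of `L(ψ_M^{2k-1}, s)`, the `L`-function of the Hecke character and of
the newform of weight `2k`: the Euler product over the places of `ℚ` with the factors `factor` (for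
`ℓ ≠ 2, 7` split or inert in `K`, `factor` is the product of the Euler factors of `ψ_M^{2k-1}` at the places
of `K` above `ℓ`) converges to `Λ(s)` for `Re s > k + 1/2`. The centre is `s = k`. -/
def IsLFunction (M k : ℕ) (Λ : ℂ → ℂ) : Prop :=
  Differentiable ℂ Λ ∧
    ∀ s : ℂ, (k : ℝ) + 1 / 2 < s.re → HasProd (factor (E M) (2 * k - 1) s) (Λ s)

/-! ### The Galois cohomology -/

/-- `H⁰(K, ℚ_2(χ)) = 0`. -/
def NoInvariants {w : QBar} (χ : Chr w) : Prop := ∀ y : ℚ_[2], (∀ σ : Gal w, qv χ σ * y = y) → y = 0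

/-- `H¹_f(K, ℚ_2(χ))` has dimension at most one: any two classes are linearly dependent; `v` is as in
`IsSelmer`. -/
def DimLEOne {w : QBar} (v : QBar) (χ : Chr w) : Prop :=
  ∀ c c' : Gal w → ℚ_[2], IsCocycle ⊤ χ c ∧ IsSelmer v ⊤ χ c → IsCocycle ⊤ χ c' ∧ IsSelmer v ⊤ χ c' →
    ∃ a a' : ℚ_[2], (a ≠ 0 ∨ a' ≠ 0) ∧ TrivialOn ⊤ χ Set.univ (a • c + a' • c')

/-- The inequality `dim H¹_f ≤ 1 ≤ ord < ∞` for `p = 2` and the two `π` of **all** even weights `2k`: the
`L`-functions are entire, and the order of vanishing at the centre is finite and at least one; the curve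
`E_M` is over `K = ℚ(w)` isomorphic to the elliptic curve `ED w (tw M)`, the absolute Galois group of `K`
acts on its `2`-adic Tate module by `κ`, `κ'`, and for `κ^k κ'^(1-k)` and `κ^(1-k) κ'^k` the Bloch–Kato
Selmer groups over `K` have dimension at most one, and `H⁰` is zero. -/
def Inequality (M : ℕ) : Prop :=
  (∀ k : ℕ, 0 < k → Even k →
    ∃ Λ : ℂ → ℂ, IsLFunction M k Λ ∧ analyticOrderAt Λ k ≠ ⊤ ∧ 1 ≤ analyticOrderAt Λ k) ∧
    ∀ w : QBar, w ^ 2 = w - 2 → Iso (EK w M) (ED w (tw M)) ∧ (ED w (tw M)).IsElliptic ∧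
      ∃ κ κ' : Chr w, TateModule (tw M) κ κ' ∧ ∀ k : ℕ, 0 < k → Even k →
        (NoInvariants (chi κ κ' k) ∧ NoInvariants (chi κ κ' (1 - k))) ∧
        DimLEOne (1 - w) (chi κ κ' k) ∧ DimLEOne w (chi κ κ' (1 - k))

/-- The class: `M = 1 mod 8` is squarefree, and all its prime factors are `1 mod 4`. -/
def Wide (M : ℕ) : Prop := Squarefree M ∧ M % 8 = 1 ∧ ∀ p : ℕ, p.Prime → p ∣ M → p % 4 = 1

/-- For large `X` at least `a X / √(log X)` of the `M ≤ X` of the class have the property `P`,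
with a constant `a > 0`. -/
def OfOrder (P : ℕ → Prop) : Prop := ∃ (a : ℝ) (X₀ : ℕ), 0 < a ∧ ∀ X : ℕ, X₀ ≤ X →
  a * X / Real.sqrt (Real.log X) ≤ (((Finset.Icc 1 X).filter fun M => Wide M ∧ P M).card : ℝ)

section proof

open Pool.Agent.W189.NF Pool.Agent.H921R2.TatePole

lemma powerSum_pw (a e : ℤ) : ∀ n : ℕ, ((powerSum a e n : ℤ) : ℂ) = W165.CE.pw (a : ℂ) (e : ℂ) n
  | 0 => by simp [powerSum, W165.CE.pw]
  | 1 => by simp [powerSum, W165.CE.pw]
  | n + 2 => by
    rw [powerSum, W165.CE.pw, ← powerSum_pw a e (n + 1), ← powerSum_pw a e n]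
    push_cast
    ring

lemma coeffs (W : WeierstrassCurve ℚ) (v : HeightOneSpectrum (𝓞 ℚ)) :
    (localPoly W v).coeff 1 = -aV W v ∧ (localPoly W v).coeff 2 = eV W v := by
  unfold localPoly aV eV
  rw [localPolynomial_eq]
  constructor
  · rw [Polynomial.coeff_add, Polynomial.coeff_sub, Polynomial.coeff_C_mul, Polynomial.coeff_C_mul,
      Polynomial.coeff_X, Polynomial.coeff_X_pow, Polynomial.coeff_one]
    norm_num
  · rw [Polynomial.coeff_add, Polynomial.coeff_sub, Polynomial.coeff_C_mul, Polynomial.coeff_C_mul,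
      Polynomial.coeff_X, Polynomial.coeff_X_pow, Polynomial.coeff_one]
    norm_num

lemma factor_eq (W : WeierstrassCurve ℚ) (n : ℕ) (s : ℂ) :
    factor W n s = Run7.h359.EU.fac W n s := by
  funext v
  unfold factor Run7.h359.EU.fac
  rw [(coeffs W v).1, (coeffs W v).2, neg_neg, powerSum_pw]
  rfl

lemma good_zero {M : ℕ} (hM : Wide M) (hR : RankZeroShaTwo M) :
    Run7.h359.WD.GoodW M (fun i : Fin 0 => i.elim0) := by
  intro T
  have hT : T = ∅ := by
    ext i
    exact i.elim0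
  refine ⟨M, 1, one_ne_zero, hM, hR, ?_⟩
  rw [hT, Finset.prod_empty]
  ring

theorem lfun {M k : ℕ} (hM : Wide M) (hR : RankZeroShaTwo M) (hk0 : 0 < k) (hk : Even k) :
    ∃ Λ : ℂ → ℂ, IsLFunction M k Λ ∧ analyticOrderAt Λ k ≠ ⊤ ∧ 1 ≤ analyticOrderAt Λ k := by
  have hI : Ind (fun i : Fin 0 => i.elim0) := by
    rintro T ⟨i, -⟩
    exact i.elim0
  obtain ⟨Λ, g1, g2, g3, g4⟩ := Run7.h359.FS.lfield_even (F := ℚ) (good_zero hM hR) hI
    (s := fun i => i.elim0) (fun i => i.elim0) (fun K _ => by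
      ext x
      exact ⟨fun _ => trivial, fun _ => by
        have h : ((x : ℚ) : ℚ) ∈ K := SubfieldClass.ratCast_mem K x
        simpa using h⟩) hk hk0
  refine ⟨Λ, ⟨g1, fun z hz => ?_⟩, g4, by simpa using g3⟩
  rw [factor_eq]
  have e : E M = Run7.h359.FE.cur (M : ℚ) := by
    have h := Run7.h359.FE.E_cur (F := ℚ) M
    simpa using h
  rw [e]
  exact g2 z hz

lemma gal_top {w : QBar} : GalL w (fun i : Fin 0 => i.elim0) = ⊤ := by
  rw [galL_eq]
  ext σ
  exact ⟨fun _ => trivial, fun _ i => i.elim0⟩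

lemma dim_of {w v : QBar} {χ : Chr w} (h : ∀ c : Fin (2 ^ 0 + 1) → Gal w → ℚ_[2],
    (∀ i, IsCocycle ⊤ χ (c i) ∧ IsSelmer v ⊤ χ (c i)) →
      ∃ a : Fin (2 ^ 0 + 1) → ℚ_[2], a ≠ 0 ∧ TrivialOn ⊤ χ Set.univ (∑ i, a i • c i)) :
    DimLEOne v χ := by
  intro c c' hc hc'
  obtain ⟨a, ha, h1⟩ := h ![c, c'] (fun i => by
    fin_cases i
    · exact hc
    · exact hc')
  refine ⟨a 0, a 1, ?_, ?_⟩
  · by_contra h2
    push Not at h2
    apply ha
    funext i
    fin_cases i
    · exact h2.1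
    · exact h2.2
  · have e : (∑ i, a i • (![c, c'] : Fin (2 ^ 0 + 1) → Gal w → ℚ_[2]) i) = a 0 • c + a 1 • c' :=
      Fin.sum_univ_two _
    rw [e] at h1
    exact h1

theorem inequality {M : ℕ} (hM : Wide M) (hR : RankZeroShaTwo M) : Inequality M := by
  refine ⟨fun k hk0 hk => lfun hM hR hk0 hk, fun w hw => ?_⟩
  have hG := good_zero hM hR
  obtain ⟨hM0, hd0⟩ := Run7.h359.WD.good_ne' hG
  obtain ⟨κ, κ', ht, r, I, kd⟩ := Pool.Agent.Kdt384.exists_tate hw hM0
  refine ⟨tw_iso hw M, elliptic (tw_ne hM0) hw, κ, κ', ht, fun k hk0 hk => ?_⟩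
  have hs : ∀ i : Fin 0, (fun i : Fin 0 => (i.elim0 : QBar)) i ^ 2 =
      (((fun i : Fin 0 => (i.elim0 : ℕ)) i : ℕ) : QBar) := fun i => i.elim0
  obtain ⟨-, h2, h3⟩ := Run7.h359.EV.selmer hG hw kd hs (k := (k : ℤ)) (by exact_mod_cast hk)
  rw [gal_top] at h2 h3
  have hinv : ∀ j : ℤ, NoInvariants (chi κ κ' j) := by
    intro j y hy
    obtain ⟨σ, -, hσ⟩ := Run7.h359.IV.chi_ne hw hM0 hd0 kd hs j
    by_contra h0
    exact hσ (mul_right_cancel₀ h0 ((hy σ).trans (one_mul y).symm))
  exact ⟨⟨hinv _, hinv _⟩, dim_of h2, dim_of h3⟩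

theorem ofOrder_of {P : ℕ → Prop} {a : ℝ} {X₀ : ℕ} (ha : 0 < a) {G : ℕ → Finset ℕ}
    (h : ∀ X : ℕ, X₀ ≤ X → a * X / Real.sqrt (Real.log X) ≤ ((G X).card : ℝ))
    (hG : ∀ X D, D ∈ G X → D ∈ Finset.Icc 1 X ∧ Wide D ∧ P D) : OfOrder P := by
  refine ⟨a, X₀, ha, fun X hX => (h X hX).trans (Nat.cast_le.2 (Finset.card_le_card fun D hD => ?_))⟩
  rw [Finset.mem_filter]
  exact hG X D hD

end proof

/-- **The inequality of Bloch and Kato for the Hecke characters of all even weights.** -/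
theorem result :
    (∀ M : ℕ, Wide M → RankZeroShaTwo M → Inequality M) ∧
    OfOrder (fun M => RankZeroShaTwo M ∧ Inequality M) := by
  refine ⟨fun M h1 h2 => inequality h1 h2, ?_⟩
  obtain ⟨a, X₀, ha, h⟩ := Run7.h359.CT.cnt
  refine ofOrder_of ha h fun X D hD => ?_
  rw [Finset.mem_filter] at hD
  exact ⟨hD.1, hD.2.1, hD.2.2, inequality hD.2.1 hD.2.2⟩

end Pool.Agent.Results.MP_7c08ba_nt.EvenWeightsInequality
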