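import Mathlib
import Pool.Agent.Run7.h135.XK.Alg
import Pool.Agent.Run7.h555.XK.Fin
import Pool.Agent.Run7.h289.XK.M15K
import Pool.Agent.Run7.h238.XK.W0
import Pool.Agent.Run7.h741.XK.Plc3
import Pool.Agent.Run7.h135.XL.Alg
import Pool.Agent.Run7.h555.XL.Fin
import Pool.Agent.Run7.h289.XL.M21K
import Pool.Agent.Run7.h238.XL.W0
import Pool.Agent.Run7.h741.XL.GCT
import Pool.Agent.Run7.h741.LC.Lvs
import Pool.Agent.Y667.BKP.Main

/-!
# The Bloch–Kato formula for two conjugate self-dual representations of `GL_2` over a positive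
# proportion of the imaginary quadratic fields

Let `E` be the modular curve `X_0(15) : y² + x y + y = x³ + x² - 10 x - 10` or
`X_0(21) : y² + x y = x³ - 4 x - 1` (no complex multiplication), `f` its newform of weight two, `K` an
imaginary quadratic field and `π` the base change of `f` to `K`, normalized by
`L(s, π) = L(E/K, s + 1)`. `π` is a cuspidal automorphic representation of `GL_2` over `K`,
regular algebraic of weight `-1`, with `π^∨ = π^c |·|^{-1}` (it comes from `ℚ`, so `π^c = π`), and its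
`2`-adic realization is `V_2 E = T_2 E ⊗ ℚ_2`, restricted to the Galois group of `K`.

Theorem. Let `K` be an imaginary quadratic field with discriminant `d ≡ 13, 37 mod 60` for `X_0(15)`,
`d ≡ 29, 53, 65 mod 84` for `X_0(21)`, such that the class group of `K` has no element of order four. Then
both sides of the formula of Bloch and Kato for `π` and `p = 2` are zero: `L(E/K, s)` is entire,
`L(E/K, 1) ≠ 0`, and `H¹_f(K, V_2 E) = 0`.

* (Exact proportion with local conditions) `K = ℚ(√-n)`, with `n ≡ 23, 47 mod 60` (`n ≡ 19, 31, 55 mod 84`)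
  squarefree. For every finite set `S` of primes that contains `2` and the primes of bad reduction of `E`
  and every such field `ℚ(√-m)`, exactly the proportion `η = ∏_{i ≥ 1} (1 - 2^{-i}) = 0.2887...` of the
  fields `ℚ(√-n)` with the same completions as `ℚ(√-m)` at the primes of `S` satisfies the hypothesis, so
  the formula holds for at least the proportion `η` of them.
* (Arbitrary local behaviour) for every finite set `S` of primes of good reduction of `E` and every
  squarefree `m` (with `m ≡ 3 mod 4` if `2 ∈ S`), the formula holds for a positive proportion of the fields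
  with the same completions as `ℚ(√-m)` at the primes of `S`. So `p = 2` may be split or inert in `K`, and
  the behaviour in `K` of finitely many other primes of good reduction (split, inert, or each of the two
  ramified extensions) may be prescribed.

`H1f 2 W` (`Pool.Agent.Y667.BKP.H1f`, starting library of helper667) is the group of the classes of
the continuous cocycles of the absolute Galois group with values in `V_2 W = T_2 W ⊗ ℚ_2` whose
restriction to the completion at every place is in the image of the Kummer map; this is the condition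
of Bloch and Kato.

Proof (projects XK and XL of the team): `L(E/K, s) = L(E, s) L(E^(-n), s)`, the central values are
computed by the modular integrals of `X_0(15)`, `X_0(21)` and theorems of Gross type, which are not zero if
only the trivial factorizations of `n` are solvable; the 2-primary part of the Tate–Shafarevich group of `E`
over `K` is killed by two and `E(K)` has eight points (2-descent over `K`). The law with local conditions
is that of `Run7/h741/LC`. Authors: helper135, helper555, helper289, helper238, helper424, helper374,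
helper376, helper377, helper437, helper639, helper834, helper890, helper919, helper89, helper843,
helper483, helper428, helper741, helper26 and others.
-/

set_option autoImplicit false

namespace Pool.Agent.Results.MP_7c08ba_nt.ImaginaryQuadraticBaseChange

open NumberField Filter Topology

open Pool.Agent.Y667.BKP (H1f)

open scoped Classical

/-- The two modular curves `X_0(15)`, `X_0(21)`. -/
inductive Curve
  | X15
  | X21

/-- The equation over the field `K`. -/
def Curve.over (K : Type) [Field K] : Curve → WeierstrassCurve K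
  | X15 => ⟨1, 1, 1, -10, -10⟩
  | X21 => ⟨1, 0, 0, -4, -1⟩

/-- The condition for the discriminant of `K`. -/
def Curve.Disc : Curve → ℤ → Prop
  | X15, d => d % 60 = 13 ∨ d % 60 = 37
  | X21, d => d % 84 = 29 ∨ d % 84 = 53 ∨ d % 84 = 65

/-- The numbers `n` of the theorem: `ℚ(√-n)` has the discriminant `-n`, which satisfies `Disc`. -/
def Curve.Class : Curve → ℕ → Prop
  | X15, n => Squarefree n ∧ (n % 60 = 23 ∨ n % 60 = 47)
  | X21, n => Squarefree n ∧ (n % 84 = 19 ∨ n % 84 = 31 ∨ n % 84 = 55)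

/-- The product of `2` and the primes of bad reduction. -/
def Curve.bad : Curve → ℕ
  | X15 => 30
  | X21 => 42

/-- The formula of Bloch and Kato for the base change `π` to `K` of the newform of `C` and `p = 2`,
both sides being zero: the `L`-series of the curve `C` over `K` (of Mathlib) converges for `Re s > 2`,
has an entire continuation, which is not zero at `s = 1`, and `H¹_f(K, V_2) = 0`. -/
structure RankFormula (C : Curve) (K : Type) [Field K] [NumberField K] : Prop where
  analytic : ∃ L : ℂ → ℂ, Differentiable ℂ L ∧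
    (∀ s : ℂ, 2 < s.re →
      LSeriesSummable ((fun n : ℤ => (n : ℂ)) ∘ (C.over K).LFunction) s ∧
        L s = (C.over K).LSeries s) ∧
    L 1 ≠ 0
  selmer : ∀ x : H1f 2 (C.over K), x = 0

/-- The class group has no element of order four. -/
def NoFour (K : Type) [Field K] [NumberField K] : Prop :=
  ∀ c : ClassGroup (𝓞 K), c ^ 4 = 1 → c ^ 2 = 1

/-- `K = ℚ(√-n)`. -/
structure IsField (K : Type) [Field K] [NumberField K] (n : ℕ) : Prop where
  two : Module.finrank ℚ K = 2
  sq : ∃ r : K, r ^ 2 = -(n : K)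

/-- The squarefree numbers `n` such that the fields `ℚ(√-n)` and `ℚ(√-m)` have the same completions at
the primes of `S`: `m n` is a square in `ℚ_p` for all `p ∈ S`. -/
def Family (S : Finset Nat.Primes) (m : ℕ) : Set ℕ :=
  {n | Squarefree n ∧ ∀ p ∈ S, haveI : Fact (p : ℕ).Prime := ⟨p.2⟩
    IsSquare ((m : ℚ_[(p : ℕ)]) * (n : ℚ_[(p : ℕ)]))}

/-- The number of the `n ≤ X` in the family such that the field `ℚ(√-n)` has the property `Q`. -/
noncomputable def num (S : Finset Nat.Primes) (m : ℕ)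
    (Q : ∀ (K : Type) [Field K] [NumberField K], Prop) (X : ℕ) : ℕ :=
  {n ∈ Family S m | n ≤ X ∧ ∀ (K : Type) [Field K] [NumberField K], IsField K n → Q K}.ncard

/-- The constant `η = ∏_{i ≥ 1} (1 - 2^{-i}) = 0.2887...` -/
noncomputable def η : ℝ := ∏' i : ℕ, (1 - (1 / 2 : ℝ) ^ (i + 1))

section proof

open Pool.Agent.Run7.h741.LC
open Pool.Agent.N969.P15 (Qc)
open Pool.Agent.Run7.h843.G (Nf)
open _root_.Run7.h555.XK (QF Cl base)

/-- the level of the library -/
def lv : Curve → Lv
  | .X15 => L15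
  | .X21 => L21

theorem class_iff (C : Curve) (n : ℕ) : C.Class n ↔ Squarefree n ∧ (lv C).P n := by
  cases C <;> exact Iff.rfl

theorem sqf {C : Curve} {n : ℕ} (h : C.Class n) : Squarefree n := ((class_iff C n).1 h).1

theorem mod4 {C : Curve} {n : ℕ} (h : C.Class n) : n % 4 = 3 :=
  (lv C).four n ((class_iff C n).1 h).2

theorem no_four {C : Curve} {K : Type} [Field K] [NumberField K] {n : ℕ} (hK : IsField K n)
    (hn : C.Class n) : Qc n ↔ NoFour K := by
  cases C with
  | X15 => exact _root_.Run7.h555.XK.no_four ⟨hK.two, hK.sq⟩ hn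
  | X21 => exact _root_.Run7.h555.XL.no_four ⟨hK.two, hK.sq⟩ hn

theorem X15_eq (K : Type) [Field K] :
    Curve.X15.over K = base _root_.Run7.h555.XK.E K := (_root_.Run7.h555.XK.base_eq' K).symm

theorem X21_eq (K : Type) [Field K] :
    Curve.X21.over K = base _root_.Run7.h555.XL.E K := (_root_.Run7.h555.XL.base_eq' K).symm

/-- the formula for one field -/
theorem formula15 {K : Type} [Field K] [NumberField K] {n : ℕ} (hK : IsField K n)
    (hn : Curve.X15.Class n) (h : NoFour K) : RankFormula .X15 K := by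
  have hK' : QF K n := ⟨hK.two, hK.sq⟩
  have hn' : Cl n := hn
  have hq : Qc n := (_root_.Run7.h555.XK.no_four hK' hn').2 h
  obtain ⟨a1, a2, -⟩ := _root_.Run7.h135.XK.alg_fin (K := K) hn hq hK.two hK.sq
  obtain ⟨F, hF, hs, y, hy, hv⟩ := _root_.Run7.h555.XK.val _root_.Run7.h741.XK.Plc.t_PLC
    Pool.Agent.Run7.h289.XK.t_M15K _root_.Run7.h238.XK.t_W0 Pool.Agent.Run7.h289.XK.t_CPER hK' hn'
  refine ⟨⟨F, hF, fun s h2 => ⟨?_, ?_⟩, ?_⟩, ?_⟩
  · exact (Pool.Agent.W189.NF.LSeries_hasProd (Curve.X15.over K) h2).1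
  · rw [hs s h2, X15_eq]
  · intro h0
    rw [h0, zero_mul] at hv
    have hy0 : y ≠ 0 := by
      rintro rfl
      have := hy.2 hq
      exact absurd this (by decide)
    have hy' : (y : ℂ) ≠ 0 := by exact_mod_cast hy0
    have hCP : _root_.Run7.h555.XK.complexPeriod _root_.Run7.h555.XK.E ≠ 0 := by
      obtain ⟨L, Op, Om, hOp, hOm', g2, g3, hL⟩ := _root_.Run7.h209.P15.m_lat
      rw [Pool.Agent.Run7.h289.XK.t_CPER L Op Om hOp hOm' g2 g3 hL]
      positivity
    have hCP' : ((_root_.Run7.h555.XK.complexPeriod _root_.Run7.h555.XK.E : ℝ) : ℂ) ≠ 0 := by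
      exact_mod_cast hCP
    refine absurd hv.symm ?_
    refine mul_ne_zero (mul_ne_zero (pow_ne_zero _ hy') (pow_ne_zero _ (by norm_num))) ?_
    exact mul_ne_zero hCP' (by norm_num)
  · have hfin : Finite (Curve.X15.over K).toAffine.Point :=
      Nat.finite_of_card_ne_zero (by
        show Nat.card (⟨1, 1, 1, -10, -10⟩ : WeierstrassCurve K).toAffine.Point ≠ 0
        omega)
    refine Pool.Agent.Y667.BKP.h1f_zero Nat.prime_two hfin 1 fun k x hx => ?_
    rw [pow_one]
    exact a2 k x hx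

/-- the formula for one field, level 21 -/
theorem formula21 {K : Type} [Field K] [NumberField K] {n : ℕ} (hK : IsField K n)
    (hn : Curve.X21.Class n) (h : NoFour K) : RankFormula .X21 K := by
  have hK' : QF K n := ⟨hK.two, hK.sq⟩
  have hn' : _root_.Run7.h555.XL.Cl n := hn
  have hq : Qc n := (_root_.Run7.h555.XL.no_four hK' hn').2 h
  obtain ⟨a1, a2, -⟩ := _root_.Run7.h135.XL.alg_fin (K := K) hn hq hK.two hK.sq
  obtain ⟨F, hF, hs, y, hy, hv⟩ := _root_.Run7.h555.XL.val _root_.Run7.h741.XK.Plc.t_PLC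
    Pool.Agent.Run7.h289.XL.t_M21K _root_.Run7.h741.XL.t_GCT _root_.Run7.h238.XL.t_W0
    Pool.Agent.Run7.h289.XL.t_CPER hK' hn'
  refine ⟨⟨F, hF, fun s h2 => ⟨?_, ?_⟩, ?_⟩, ?_⟩
  · exact (Pool.Agent.W189.NF.LSeries_hasProd (Curve.X21.over K) h2).1
  · rw [hs s h2, X21_eq]
  · intro h0
    rw [h0, zero_mul] at hv
    have hy0 : y ≠ 0 := by
      rintro rfl
      have := hy.2 hq
      exact absurd this (by decide)
    have hy' : (y : ℂ) ≠ 0 := by exact_mod_cast hy0
    have hCP : _root_.Run7.h555.XK.complexPeriod _root_.Run7.h555.XL.E ≠ 0 := by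
      obtain ⟨L, Op, Om, hOp, hOm', g2, g3, hL⟩ := _root_.Run7.h209.P21.m_lat
      rw [Pool.Agent.Run7.h289.XL.t_CPER L Op Om hOp hOm' g2 g3 hL]
      positivity
    have hCP' : ((_root_.Run7.h555.XK.complexPeriod _root_.Run7.h555.XL.E : ℝ) : ℂ) ≠ 0 := by
      exact_mod_cast hCP
    refine absurd hv.symm ?_
    refine mul_ne_zero (mul_ne_zero (pow_ne_zero _ hy') (pow_ne_zero _ (by norm_num))) ?_
    exact mul_ne_zero hCP' (by norm_num)
  · have hfin : Finite (Curve.X21.over K).toAffine.Point :=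
      Nat.finite_of_card_ne_zero (by
        show Nat.card (⟨1, 0, 0, -4, -1⟩ : WeierstrassCurve K).toAffine.Point ≠ 0
        omega)
    refine Pool.Agent.Y667.BKP.h1f_zero Nat.prime_two hfin 1 fun k x hx => ?_
    rw [pow_one]
    exact a2 k x hx

/-- the formula for one field -/
theorem formula (C : Curve) {K : Type} [Field K] [NumberField K] {n : ℕ} (hK : IsField K n)
    (hn : C.Class n) (h : NoFour K) : RankFormula C K := by
  cases C with
  | X15 => exact formula15 hK hn h
  | X21 => exact formula21 hK hn h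

theorem exists_field {n : ℕ} (hn : Squarefree n) :
    ∃ (K : Type) (_ : Field K) (_ : NumberField K), IsField K n := by
  obtain ⟨-, -, hD3⟩ := Pool.Agent.Y797.FK.t_DISC
  obtain ⟨K, i1, i2, h2, hs⟩ := hD3 n hn
  exact ⟨K, i1, i2, h2, hs⟩

theorem discr_field {C : Curve} {K : Type} [Field K] [NumberField K] {n : ℕ} (hK : IsField K n)
    (hn : C.Class n) : discr K = -(n : ℤ) := by
  obtain ⟨hD1, -, -⟩ := Pool.Agent.Y797.FK.t_DISC
  rw [hD1 K hK.two n (sqf hn) hK.sq, if_pos (mod4 hn)]

theorem of_disc {C : Curve} {K : Type} [Field K] [NumberField K] (h2 : Module.finrank ℚ K = 2)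
    (hneg : discr K < 0) (hd : C.Disc (discr K)) : ∃ n : ℕ, IsField K n ∧ C.Class n := by
  obtain ⟨hD1, hD2, -⟩ := Pool.Agent.Y797.FK.t_DISC
  obtain ⟨n, hn, hs⟩ := hD2 K h2 hneg
  have h := hD1 K h2 n hn hs
  refine ⟨n, ⟨h2, hs⟩, ?_⟩
  by_cases h4 : n % 4 = 3
  · rw [if_pos h4] at h
    rw [h] at hd
    cases C with
    | X15 =>
      refine ⟨hn, ?_⟩
      have hd' : (-(n : ℤ)) % 60 = 13 ∨ (-(n : ℤ)) % 60 = 37 := hd
      omega
    | X21 =>
      refine ⟨hn, ?_⟩
      have hd' : (-(n : ℤ)) % 84 = 29 ∨ (-(n : ℤ)) % 84 = 53 ∨ (-(n : ℤ)) % 84 = 65 := hd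
      omega
  · exfalso
    rw [if_neg h4] at h
    rw [h] at hd
    cases C with
    | X15 =>
      have hd' : (-(4 * n : ℤ)) % 60 = 13 ∨ (-(4 * n : ℤ)) % 60 = 37 := hd
      omega
    | X21 =>
      have hd' : (-(4 * n : ℤ)) % 84 = 29 ∨ (-(4 * n : ℤ)) % 84 = 53 ∨ (-(4 * n : ℤ)) % 84 = 65 := hd
      omega

theorem mem_iff (S : Finset Nat.Primes) (m n : ℕ) :
    n ∈ Family S m ↔ Squarefree n ∧ Loc S m n := by
  refine and_congr_right fun _ => forall_congr' fun p => imp_congr_right fun _ => ?_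
  unfold SamP Same
  push_cast
  rfl

theorem num_card (S : Finset Nat.Primes) (m : ℕ)
    (Q : ∀ (K : Type) [Field K] [NumberField K], Prop) (R : ℕ → Prop)
    (h : ∀ n : ℕ, Squarefree n → Loc S m n →
      ((∀ (K : Type) [Field K] [NumberField K], IsField K n → Q K) ↔ R n)) (X : ℕ) :
    num S m Q X = ((Finset.Icc 1 X).filter fun n : ℕ => Squarefree n ∧ Loc S m n ∧ R n).card := by
  rw [← Set.ncard_coe_finset]
  unfold num
  congr 1
  ext n
  have e1 := mem_iff S m n
  rw [Finset.mem_coe, Finset.mem_filter, Finset.mem_Icc]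
  constructor
  · rintro ⟨h0, h3, h4⟩
    obtain ⟨h1, h2⟩ := e1.1 h0
    exact ⟨⟨Nat.pos_of_ne_zero h1.ne_zero, h3⟩, h1, h2, (h n h1 h2).1 h4⟩
  · rintro ⟨⟨-, h3⟩, h1, h2, h4⟩
    exact ⟨e1.2 ⟨h1, h2⟩, h3, (h n h1 h2).2 h4⟩

theorem num_finite (S : Finset Nat.Primes) (m : ℕ)
    (Q : ∀ (K : Type) [Field K] [NumberField K], Prop) (X : ℕ) :
    {n ∈ Family S m | n ≤ X ∧ ∀ (K : Type) [Field K] [NumberField K],
      IsField K n → Q K}.Finite :=
  (Set.finite_le_nat X).subset fun _ h => h.2.1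

theorem eta_eq : η = Pool.Agent.N916.GB.eta := rfl

theorem sub_bad {C : Curve} {S : Finset Nat.Primes}
    (hS : ∀ p : Nat.Primes, (p : ℕ) ∣ C.bad → p ∈ S) : (lv C).bad ⊆ S := by
  intro p hp
  refine hS p ?_
  cases C with
  | X15 =>
    have : p ∈ ({pr2, pr3, pr5} : Finset Nat.Primes) := hp
    simp only [Finset.mem_insert, Finset.mem_singleton] at this
    rcases this with rfl | rfl | rfl
    · show 2 ∣ 30
      norm_num
    · show 3 ∣ 30
      norm_num
    · show 5 ∣ 30
      norm_num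
  | X21 =>
    have : p ∈ ({pr2, pr3, pr7} : Finset Nat.Primes) := hp
    simp only [Finset.mem_insert, Finset.mem_singleton] at this
    rcases this with rfl | rfl | rfl
    · show 2 ∣ 42
      norm_num
    · show 3 ∣ 42
      norm_num
    · show 7 ∣ 42
      norm_num

theorem class_of {C : Curve} {S : Finset Nat.Primes}
    (hS : ∀ p : Nat.Primes, (p : ℕ) ∣ C.bad → p ∈ S) {m n : ℕ} (hm : C.Class m)
    (hn : Squarefree n) (hl : Loc S m n) : C.Class n :=
  (class_iff C n).2 ⟨hn, (lv C).loc m n (sqf hm) hn ((class_iff C m).1 hm).2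
    fun p hp => hl p (sub_bad hS hp)⟩

theorem two_mem {C : Curve} {S : Finset Nat.Primes}
    (hS : ∀ p : Nat.Primes, (p : ℕ) ∣ C.bad → p ∈ S) : (⟨2, Nat.prime_two⟩ : Nat.Primes) ∈ S :=
  hS _ (by cases C <;> norm_num [Curve.bad])

theorem num_true (S : Finset Nat.Primes) (m X : ℕ) : num S m (fun _ _ _ => True) X =
    ((Finset.Icc 1 X).filter fun n : ℕ => Squarefree n ∧ Loc S m n).card := by
  rw [num_card S m (fun _ _ _ => True) (fun _ => True)
    (fun n _ _ => ⟨fun _ => trivial, fun _ _ _ _ _ => trivial⟩) X]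
  exact card_of _ _ _ fun n => by rw [and_true]

/-- the exact proportion -/
theorem lim {C : Curve} {S : Finset Nat.Primes}
    (hS : ∀ p : Nat.Primes, (p : ℕ) ∣ C.bad → p ∈ S) {m : ℕ} (hm : C.Class m) : Tendsto (fun X : ℕ => (num S m (fun K _ _ => NoFour K) X : ℝ) /
        (num S m (fun _ _ _ => True) X : ℝ)) atTop (𝓝 η) := by
  have h1 := dens_loc (two_mem hS) (sqf hm) (mod4 hm) 0
  rw [gk_zero, ← eta_eq] at h1
  have key : ∀ n : ℕ, Squarefree n → Loc S m n →
      ((∀ (K : Type) [Field K] [NumberField K], IsField K n → NoFour K) ↔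
        Nf n = 2 ^ (0 + 1)) := ?_
  · refine h1.congr fun X => ?_
    rw [num_true, num_card S m (fun K _ _ => NoFour K) (fun n => Nf n = 2 ^ (0 + 1)) key X]
    exact div_congr (card_of _ _ _ fun n => Iff.rfl) (card_of _ _ _ fun n => Iff.rfl)
  intro n hn hl
  have hc := class_of hS hm hn hl
  have h2 : Nf n = 2 ^ (0 + 1) ↔ Qc n := Pool.Agent.Run7.h741.LC.Nf_two (by have := mod4 hc; omega)
  rw [h2]
  constructor
  · intro h
    obtain ⟨K, i1, i2, hK⟩ := exists_field hn
    exact (no_four hK hc).2 (h K hK)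
  · intro h K _ _ hK
    exact (no_four hK hc).1 h

/-- the lower density -/
theorem low {C : Curve} {S : Finset Nat.Primes}
    (hS : ∀ p : Nat.Primes, (p : ℕ) ∣ C.bad → p ∈ S) {m : ℕ}
    (hm : C.Class m) (c : ℝ) (hc : c < η) : ∀ᶠ X : ℕ in atTop,
      c * (num S m (fun _ _ _ => True) X : ℝ) ≤ (num S m (fun K _ _ => RankFormula C K) X : ℝ) := by
  filter_upwards [(lim hS hm).eventually (lt_mem_nhds hc)] with X hX
  have h5 : num S m (fun K _ _ => NoFour K) X ≤ num S m (fun K _ _ => RankFormula C K) X := by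
    refine Set.ncard_le_ncard ?_ (num_finite S m _ X)
    rintro n ⟨h1, h2, h3⟩
    have h4 := (mem_iff S m n).1 h1
    have hc := class_of hS hm h4.1 h4.2
    exact ⟨h1, h2, fun K _ _ hK => formula C hK hc (h3 K hK)⟩
  have h6 : (num S m (fun K _ _ => NoFour K) X : ℝ) ≤
      (num S m (fun K _ _ => RankFormula C K) X : ℝ) := by exact_mod_cast h5
  rcases (Nat.cast_nonneg (num S m (fun _ _ _ => True) X) : (0 : ℝ) ≤ _).eq_or_lt with h7 | h7
  · rw [← h7, mul_zero]
    exact Nat.cast_nonneg _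
  · rw [lt_div_iff₀ h7] at hX
    exact hX.le.trans h6

/-- the classes prime to the modulus -/
theorem exists_cls (C : Curve) (m : ℕ) : ∃ M r : ℕ, 2 ∣ M ∧ 0 < M ∧ r.Coprime M ∧
    (∀ p : ℕ, p.Prime → p ∣ M → p ∣ C.bad) ∧ (m % 4 = 3 → ∀ n, n % M = r % M → n % 8 = m % 8) ∧
    ∀ n, Squarefree n → n % M = r % M → C.Class n := by
  have hp : ∀ {p k m : ℕ}, p.Prime → p ∣ k → k ∣ m ^ 3 → p ∣ m := fun h1 h2 h3 =>
    h1.dvd_of_dvd_pow (h2.trans h3)
  cases C with
  | X15 =>
    by_cases h : m % 8 = 3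
    · exact ⟨120, 83, by norm_num, by norm_num, by norm_num, fun p h1 h2 =>
        hp h1 h2 (by norm_num [Curve.bad]), fun _ n _ => by omega,
        fun n hn h => ⟨hn, Or.inl (by omega)⟩⟩
    · exact ⟨120, 23, by norm_num, by norm_num, by norm_num, fun p h1 h2 =>
        hp h1 h2 (by norm_num [Curve.bad]), fun _ n _ => by omega,
        fun n hn h => ⟨hn, Or.inl (by omega)⟩⟩
  | X21 =>
    by_cases h : m % 8 = 3
    · exact ⟨168, 19, by norm_num, by norm_num, by norm_num, fun p h1 h2 =>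
        hp h1 h2 (by norm_num [Curve.bad]), fun _ n _ => by omega,
        fun n hn h => ⟨hn, Or.inl (by omega)⟩⟩
    · exact ⟨168, 103, by norm_num, by norm_num, by norm_num, fun p h1 h2 =>
        hp h1 h2 (by norm_num [Curve.bad]), fun _ n _ => by omega,
        fun n hn h => ⟨hn, Or.inl (by omega)⟩⟩

/-- a field in the class with given behaviour -/
theorem exists_start (C : Curve) (S : Finset Nat.Primes) (m : ℕ) (hm : Squarefree m)
    (hS : ∀ p ∈ S, (p : ℕ) ∣ C.bad → (p : ℕ) = 2 ∧ m % 4 = 3) :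
    ∃ n : ℕ, C.Class n ∧ Loc S m n := by
  obtain ⟨M, r, m1, m2, m3, m4, m5, m6⟩ := exists_cls C m
  obtain ⟨n, hn, hnr, hnl⟩ := exists_loc m1 m2 m3 (S.erase pr2) (by
      intro p hp hd
      rw [Finset.mem_erase] at hp
      exact hp.1 (Subtype.ext (hS p hp.2 (m4 p p.2 hd)).1))
    (m := (m : ℤ)) (sqf_cast.2 hm)
  refine ⟨n, m6 n hn hnr, fun p hp => ?_⟩
  by_cases h : p = pr2
  · subst h
    have h4 := (hS pr2 hp (by
      show 2 ∣ C.bad
      cases C <;> norm_num [Curve.bad])).2
    have h8 := m5 h4 n hnr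
    have : Fact (Nat.Prime 2) := ⟨Nat.prime_two⟩
    show Same 2 (m : ℤ) (n : ℤ)
    unfold Same
    have h9 : ((m : ℤ) * n) % 8 = 1 := by
      have e1 : (m : ℤ) % 8 = 3 ∨ (m : ℤ) % 8 = 7 := by omega
      have e2 : (n : ℤ) % 8 = (m : ℤ) % 8 := by omega
      rw [Int.mul_emod, e2]
      rcases e1 with e1 | e1 <;> rw [e1] <;> norm_num
    have h10 := _root_.Run7.h741.XK.padic_sq2 h9
    rw [Int.cast_mul] at h10
    exact h10
  · exact hnl p (Finset.mem_erase.2 ⟨h, hp⟩)

/-- positive lower density -/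
theorem any (C : Curve) (S : Finset Nat.Primes) (m : ℕ) (hm : Squarefree m)
    (hS : ∀ p ∈ S, (p : ℕ) ∣ C.bad → (p : ℕ) = 2 ∧ m % 4 = 3) :
    ∃ c : ℝ, 0 < c ∧ ∀ᶠ X : ℕ in atTop,
      c * X ≤ (num S m (fun K _ _ => RankFormula C K) X : ℝ) := by
  obtain ⟨n0, h0, hl⟩ := exists_start C S m hm hS
  obtain ⟨S', hS', h30⟩ : ∃ S' : Finset Nat.Primes, (∀ p ∈ S, p ∈ S') ∧
      ∀ p : Nat.Primes, (p : ℕ) ∣ C.bad → p ∈ S' := by
    have hinj : Function.Injective (fun p : Nat.Primes => (p : ℕ)) := fun a b h => Subtype.ext h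
    have h0 : C.bad ≠ 0 := by cases C <;> norm_num [Curve.bad]
    refine ⟨S ∪ (Finset.range (C.bad + 1)).preimage _ hinj.injOn, fun p hp =>
      Finset.mem_union_left _ hp, fun p hp => Finset.mem_union_right _ ?_⟩
    rw [Finset.mem_preimage, Finset.mem_range]
    exact Nat.lt_succ_of_le (Nat.le_of_dvd (Nat.pos_of_ne_zero h0) hp)
  have hη : (0 : ℝ) < η := Pool.Agent.N916.GB.eta_pos
  obtain ⟨c, hc, X₀, h1⟩ := low_loc (two_mem h30) (sqf h0)
  refine ⟨η / 2 * c, by positivity, ?_⟩
  filter_upwards [low h30 h0 (η / 2) (by linarith), eventually_ge_atTop X₀] with X g1 g2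
  have g3 := h1 X g2
  rw [num_true] at g1
  have g4 : num S' n0 (fun K _ _ => RankFormula C K) X ≤ num S m (fun K _ _ => RankFormula C K) X := by
    refine Set.ncard_le_ncard ?_ (num_finite S m _ X)
    rintro n ⟨a1, a2, a3⟩
    obtain ⟨b1, b2⟩ := (mem_iff S' n0 n).1 a1
    refine ⟨(mem_iff S m n).2 ⟨b1, fun p hp => ?_⟩, a2, a3⟩
    have : Fact (p : ℕ).Prime := ⟨p.2⟩
    have b3 : SamP p n0 n := b2 p (hS' p hp)
    exact Same.trans (by exact_mod_cast (sqf h0).ne_zero) (hl p hp) b3
  calc η / 2 * c * X = η / 2 * (c * X) := by ring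
    _ ≤ η / 2 * _ := by gcongr
    _ ≤ _ := g1
    _ ≤ _ := by exact_mod_cast g4

end proof

/-- **Main theorem.** -/
theorem result (C : Curve) :
    (∀ (K : Type) [Field K] [NumberField K], Module.finrank ℚ K = 2 → discr K < 0 →
      C.Disc (discr K) → NoFour K → RankFormula C K) ∧
    (∀ n : ℕ, Squarefree n → ∃ (K : Type) (_ : Field K) (_ : NumberField K), IsField K n) ∧
    (∀ (K : Type) [Field K] [NumberField K] (n : ℕ), IsField K n → C.Class n →
      discr K = -(n : ℤ)) ∧
    (∀ (S : Finset Nat.Primes) (m : ℕ), (∀ p : Nat.Primes, (p : ℕ) ∣ C.bad → p ∈ S) → C.Class m →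
      (∀ n ∈ Family S m, C.Class n) ∧
      Tendsto (fun X : ℕ => (num S m (fun K _ _ => NoFour K) X : ℝ) /
        (num S m (fun _ _ _ => True) X : ℝ)) atTop (𝓝 η) ∧
      ∀ c : ℝ, c < η → ∀ᶠ X : ℕ in atTop, c * (num S m (fun _ _ _ => True) X : ℝ) ≤
        (num S m (fun K _ _ => RankFormula C K) X : ℝ)) ∧
    (∀ (S : Finset Nat.Primes) (m : ℕ), Squarefree m →
      (∀ p ∈ S, (p : ℕ) ∣ C.bad → (p : ℕ) = 2 ∧ m % 4 = 3) →
      ∃ c : ℝ, 0 < c ∧ ∀ᶠ X : ℕ in atTop,
        c * X ≤ (num S m (fun K _ _ => RankFormula C K) X : ℝ)) ∧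
    0.2887 < η := by
  refine ⟨?_, fun n hn => exists_field hn, fun K _ _ n hK hn => discr_field hK hn, ?_,
    fun S m hm hS => any C S m hm hS, Pool.Agent.N916.GB.eta_bounds.1⟩
  · intro K _ _ h2 hneg hd hno
    obtain ⟨n, hK, hn⟩ := of_disc h2 hneg hd
    exact formula C hK hn hno
  · intro S m hS hm
    refine ⟨fun n hn => ?_, lim hS hm, low hS hm⟩
    obtain ⟨h1, h2⟩ := (mem_iff S m n).1 hn
    exact class_of hS hm h1 h2

end Pool.Agent.Results.MP_7c08ba_nt.ImaginaryQuadraticBaseChange
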