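import Pool.Agent.Results.MP_ec4e4b_nt.OddWeightsMultiquadratic
import Pool.Agent.Run7.h359.Jnt

/-!
# The joint law of the formula of Bloch and Kato for conjugate self-dual Hecke characters of all odd
# weights over the multiquadratic CM fields containing `√-7`

`K = ℚ(√-7) = ℚ(w)`, `w² = w - 2`. Let `E_M` be the quadratic twist by `M` of `X_0(49)`, an elliptic
curve over `ℚ` with complex multiplication by `ℤ[w]`, `ψ_M` its Hecke character over `K`. Let
`F = ℚ(√d_1, …, √d_n)`, a totally real field, and let `L = F(√-7)`, a CM field. For odd `k > 0` the Hecke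
characters `ψ_M^k ψ̄_M^(1-k)` and `ψ_M^(1-k) ψ̄_M^k`, normalized and composed with the norm from `L` to
`K`, are two conjugate automorphic representations `π` of `GL_1` over `L` with `π^∨ = π^c |·|^(-1)`. Their
`L`-function is the one over `F` of the base change to `F` of the newform of `ψ_M^{2k-1}`: the
representation of `Gal(ℚ̄/F)` of this form is induced from `Gal(ℚ̄/L)`. The group `Gal(ℚ̄/K)` acts on the
`2`-adic Tate module of `E_M` by two characters `κ`, `κ'`, and the `2`-adic realizations of the `π` are
`ℚ_2(κ^k κ'^(1-k))` and `ℚ_2(κ^(1-k) κ'^k)`.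

The class consists of the squarefree `D = 1 mod 8` with all prime factors `1 mod 4`; it has the order of
magnitude `X / √(log X)` (Landau). A pair of `N` and `d_1, …, d_n` is good if all the `N ∏_{i ∈ S} d_i` are,
up to squares, numbers `D` of the class such that `E_D(ℚ)` is finite and `Ш(E_D/ℚ)` has no element of order
two, a condition on the weight `2` and the field `ℚ` only.

Theorem (the joint law). Let `d_1, …, d_n` be members of the class, independent modulo squares, and let
`T` be a finite set of members of the class that are pairwise different modulo the `d_i` and squares. For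
`N` in the class the `|T|` events `(M N, d)` is good, `M ∈ T`, are independent, each of probability
`c ^ 2 ^ n`, `c = ∏_{i ≥ 0} (1 - 2^{-2i-1}) = 0.4194…`: for every `V ⊆ T` the set of the `M ∈ T` with
`(M N, d)` good is equal to `V` for exactly the proportion `(c^(2^n))^|V| (1 - c^(2^n))^(|T| - |V|)` of the
`N` of the class, and the same holds for the norms `N = a² + b² = 1 mod 8` of the pairs `(a, b)` of
integers: this is the case for exactly a quarter of that proportion of **all** the pairs of integers,
ordered by `a² + b²`. For all `M ∈ V` and **all** odd `k > 0` the formula of Bloch and Kato holds for both `π` of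
`E_{MN}` over `L` and `p = 2`, both sides being zero. In particular this is so for all `M ∈ T` and all odd
`k` at the same time for a positive proportion, at least `c^(2^n |T|) / 4`, of all the pairs of
integers.

Proof. The implication from the good pairs is `MP_ec4e4b_nt/OddWeightsMultiquadratic` (helper359). The joint law
without the condition modulo `8` is in the starting files (`R413`) for the numbers, and by helper428
(`Run7/h428`, with the count of the pairs by helper238) for the pairs of integers. Here both are proved for
the sets of primes with a given label in a finite abelian group (`Run7/h359/La1` to `La14`), and the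
shift of the even coordinate by two shows that a quarter of all the pairs have norm `1 mod 8`.
-/

set_option autoImplicit false

namespace Pool.Agent.Results.MP_7c08ba_nt.JointLawCMFields

open Pool.Agent.Results.MP_787500_nt.AllWeightsMultiquadraticX49
open Pool.Agent.Results.MP_ec4e4b_nt.OddWeightsMultiquadratic (IsLFunction EF all_formulas)
open Pool.Agent.Results.MP_787500_nt.AllWeightsMultiquadraticX49 (Ind c)
open Run7.h359.Jnt

/-- The formula of Bloch and Kato for `p = 2` and the two `π` over `L = K(√d_1, …, √d_n)` of **all** odd
weights, both sides being zero: the curve `E_M` is over `K = ℚ(w)` isomorphic to the elliptic curve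
`ED w (tw M)`, the absolute Galois group of `K` acts on its `2`-adic Tate module by `κ`, `κ'`, the
`L`-functions are entire and not zero at the centre `k`, and the Bloch–Kato Selmer groups over `L` of
`κ^k κ'^(1-k)` and `κ^(1-k) κ'^k` are zero. -/
def FormulaCM (M : ℕ) {n : ℕ} (d : Fin n → ℕ) : Prop := ∀ w : QBar, w ^ 2 = w - 2 →
  Iso (EK w M) (ED w (tw M)) ∧ (ED w (tw M)).IsElliptic ∧
  ∃ κ κ' : Chr w, TateModule (tw M) κ κ' ∧
    ∀ s : Fin n → QBar, (∀ i, s i ^ 2 = (d i : QBar)) → ∀ k : ℕ, Odd k →
      (∃ Λ : ℂ → ℂ, IsLFunction (EF s M) k Λ ∧ Λ k ≠ 0) ∧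
      SelmerZero (1 - w) (GalL w s) (chi κ κ' k) ∧ SelmerZero w (GalL w s) (chi κ κ' (1 - k))

theorem formula_of {M n : ℕ} {d : Fin n → ℕ} (hG : GoodPair M d) : FormulaCM M d := by
  intro w hw
  obtain ⟨h1, h2, κ, κ', h3, h4⟩ := all_formulas hG w hw
  refine ⟨h1, h2, κ, κ', h3, fun s hs k hk => ?_⟩
  obtain ⟨Λ, ⟨g1, -⟩, -, -, g2⟩ := h4 s hs k hk
  exact ⟨⟨Λ, g1⟩, g2⟩

/-- **The joint law of the twists.** -/
theorem result :
    (∀ (n : ℕ) (d : Fin n → ℕ) (T V : Finset ℕ), (∀ i, Wide (d i)) → Ind d → (∀ M ∈ T, Wide M) →
      Separated d T → V ⊆ T →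
      Proportion (prob n T V) (fun N => IsPattern d T V N ∧ ∀ M ∈ V, FormulaCM (M * N) d) ∧
      PairProportion (prob n T V / 4)
        (fun N => N % 8 = 1 ∧ IsPattern d T V N ∧ ∀ M ∈ V, FormulaCM (M * N) d)) ∧
    0.4194 < c ∧ c < 0.4195 := by
  obtain ⟨-, -, -, h4, h5⟩ := Pool.Agent.Results.MP_787500_nt.AllWeightsMultiquadraticX49.result
  exact ⟨fun n d T V hd hI hT hsep hV =>
    joint hd hI hT hsep hV (fun N => FormulaCM N d) fun N hN => formula_of hN, h4, h5⟩

end Pool.Agent.Results.MP_7c08ba_nt.JointLawCMFields
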