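import Pool.Agent.Results.MP_787500_nt.AllWeightsMultiquadraticX49
import Pool.Agent.Results.MP_d4aa36_nt.InfiniteTowersCMForms
import Pool.Agent.Run7.h359.Wid
import Pool.Agent.Run7.h359.Wal
import Pool.Agent.Run7.h359.Cnt

/-!
# The formula of Bloch and Kato for the conjugate self-dual Hecke characters of `ℚ(√-7)` attached to the
# twists of `X_0(49)`, for all odd weights

`K = ℚ(√-7) = ℚ(w)`, `w² = w - 2`. Let `E_M` be the quadratic twist by `M` of `X_0(49)`, an elliptic
curve over `ℚ` with complex multiplication by `ℤ[w]`, `ψ_M` its Hecke character over `K`. For odd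
`k > 0` the Hecke characters `ψ_M^k ψ̄_M^(1-k)` and `ψ_M^(1-k) ψ̄_M^k`, normalized, are the two conjugate
automorphic representations `π` of `GL_1` over `K` with `π^∨ = π^c |·|^(-1)` whose `L`-function is the
one of the newform of weight `2k` of `ψ_M^(2k-1)`: `L(s, π) = L(ψ_M^(2k-1), s + k)`. The group
`Gal(ℚ̄/K)` acts on the `2`-adic Tate module of `E_M` by two characters `κ`, `κ'`, and the `2`-adic
realizations of the `π` are `ℚ_2(κ^k κ'^(1-k))` and `ℚ_2(κ^(1-k) κ'^k)`.

The class consists of the squarefree `M = 1 mod 8` with all prime factors `1 mod 4`. Theorem: if `M` is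
in the class, `E_M(ℚ)` is finite and `Ш(E_M/ℚ)` has no element of order two, a condition on the weight
`2` only, then for **all** odd `k` the formula of Bloch and Kato holds for both `π` and `p = 2`, both
sides being zero: `L(s, π)` is entire and does not vanish at the centre, and the Bloch–Kato Selmer groups
over `K` are zero. At least `a X / √(log X)` of the `M ≤ X` have this property, `a > 0`, the order of
magnitude of the class (Landau), and in the subclass of the numbers with prime factors `1 mod 8` and split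
in `K` or `5 mod 8` and inert in `K` the lower proportion is at least `c = 0.419…`.

For the subclass the Selmer groups are those of the starting file
`MP_787500_nt/AllWeightsMultiquadraticX49`; they are extended to the class here (`Run7/h359/Wsel`,
`Wal`). New here are also the central values for all odd `k > 1`. The proof is in `Run7/h359`. The value
`L(ψ_M^{2k-1}, k)` is a weighted sum over the points of `E` of odd order dividing `M √-7` of the
coefficients of the expansion of the theta function of Kronecker. For odd `k` these are congruent modulo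
`8`, at a prime above `2`, to a multiple of those for `k = 1`. Induction over the divisors of `M`, with
the known `2`-adic valuations for `k = 1` as an input, determines the `2`-adic valuation of the algebraic
part of `L(ψ_M^{2k-1}, k)`; in particular the value is not zero.
-/

set_option autoImplicit false

namespace Pool.Agent.Results.MP_7c08ba_nt.OddWeightsFormula

open Pool.Agent.Results.MP_787500_nt.AllWeightsMultiquadraticX49
open NumberField IsDedekindDomain WeierstrassCurve Filter Topology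
open scoped Classical

/-- `α ^ n + β ^ n`, where `α + β = a` and `α β = e`. -/
def powerSum (a e : ℤ) : ℕ → ℤ
  | 0 => 2
  | 1 => a
  | n + 2 => a * powerSum a e (n + 1) - e * powerSum a e n

/-- The local polynomial `1 - a T + e T² = (1 - α T) (1 - β T)` of the curve `W` at the place `v`: at the
places of good reduction `e` is the norm `q` of `v` and `a = q + 1 - #W(k_v)`, and the polynomial is `1` at
the places of additive reduction. -/
noncomputable def localPoly (W : WeierstrassCurve ℚ) (v : HeightOneSpectrum (𝓞 ℚ)) : Polynomial ℤ :=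
  (W.baseChange (v.adicCompletion ℚ)).localPolynomial (v.adicCompletionIntegers ℚ)

/-- The Euler factor `1 / ((1 - α ^ n q^{-s}) (1 - β ^ n q^{-s}))`, where `(1 - α T) (1 - β T)` is the
local polynomial of the curve `W` at the place `v` of norm `q`. -/
noncomputable def factor (W : WeierstrassCurve ℚ) (n : ℕ) (s : ℂ) (v : HeightOneSpectrum (𝓞 ℚ)) : ℂ :=
  (1 - (powerSum (-(localPoly W v).coeff 1) ((localPoly W v).coeff 2) n : ℂ) *
      (Ideal.absNorm v.asIdeal : ℂ) ^ (-s) +
    ((localPoly W v).coeff 2 : ℂ) ^ n * ((Ideal.absNorm v.asIdeal : ℂ) ^ (-s)) ^ 2)⁻¹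

/-- `Λ` is the entire continuation of `L(ψ_M^{2k-1}, s)`, the `L`-function of the Hecke character and of
the newform of weight `2k`: the Euler product over the places of `ℚ` with the factors `factor` (for
`ℓ ≠ 2, 7` split or inert in `K`, `factor` is the product of the Euler factors of `ψ_M^{2k-1}` at the places
of `K` above `ℓ`) converges to `Λ(s)` for `Re s > k + 1/2`. The centre is `s = k`. -/
def IsLFunction (M k : ℕ) (Λ : ℂ → ℂ) : Prop :=
  Differentiable ℂ Λ ∧
    ∀ s : ℂ, (k : ℝ) + 1 / 2 < s.re → HasProd (factor (E M) (2 * k - 1) s) (Λ s)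

/-- The formula of Bloch and Kato for `p = 2` and the two `π` of **all** odd weights, both sides being
zero: the `L`-functions are entire and not zero at the centre; the curve `E_M` is over `K = ℚ(w)`
isomorphic to the elliptic curve `ED w (tw M)`, the absolute Galois group of `K` acts on its `2`-adic
Tate module by `κ`, `κ'`, and the Bloch–Kato Selmer groups over `K` of `κ^k κ'^(1-k)` and
`κ^(1-k) κ'^k` are zero. -/
def Formula (M : ℕ) : Prop :=
  (∀ k : ℕ, Odd k → ∃ Λ : ℂ → ℂ, IsLFunction M k Λ ∧ Λ k ≠ 0) ∧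
    ∀ w : QBar, w ^ 2 = w - 2 → Iso (EK w M) (ED w (tw M)) ∧ (ED w (tw M)).IsElliptic ∧
      ∃ κ κ' : Chr w, TateModule (tw M) κ κ' ∧ ∀ k : ℕ, Odd k →
        SelmerZero (1 - w) ⊤ (chi κ κ' k) ∧ SelmerZero w ⊤ (chi κ κ' (1 - k))

/-- The class: `M = 1 mod 8` is squarefree, and all its prime factors are `1 mod 4`. -/
def Wide (M : ℕ) : Prop := Squarefree M ∧ M % 8 = 1 ∧ ∀ p : ℕ, p.Prime → p ∣ M → p % 4 = 1

/-- For large `X` at least `a X / √(log X)` of the `M ≤ X` of the class have the property `P`,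
with a constant `a > 0`. -/
def OfOrder (P : ℕ → Prop) : Prop := ∃ (a : ℝ) (X₀ : ℕ), 0 < a ∧ ∀ X : ℕ, X₀ ≤ X →
  a * X / Real.sqrt (Real.log X) ≤ (((Finset.Icc 1 X).filter fun M => Wide M ∧ P M).card : ℝ)

section proof

open Pool.Agent.W189.NF Pool.Agent.H921R2.TatePole

lemma powerSum_pw (a e : ℤ) : ∀ n : ℕ, ((powerSum a e n : ℤ) : ℂ) = W165.CE.pw (a : ℂ) (e : ℂ) n
  | 0 => by simp [powerSum, W165.CE.pw]
  | 1 => by simp [powerSum, W165.CE.pw]
  | n + 2 => by
    rw [powerSum, W165.CE.pw, ← powerSum_pw a e (n + 1), ← powerSum_pw a e n]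
    push_cast
    ring

lemma coeffs (W : WeierstrassCurve ℚ) (v : HeightOneSpectrum (𝓞 ℚ)) :
    (localPoly W v).coeff 1 = -aV W v ∧ (localPoly W v).coeff 2 = eV W v := by
  unfold localPoly aV eV
  rw [localPolynomial_eq]
  constructor
  · rw [Polynomial.coeff_add, Polynomial.coeff_sub, Polynomial.coeff_C_mul, Polynomial.coeff_C_mul,
      Polynomial.coeff_X, Polynomial.coeff_X_pow, Polynomial.coeff_one]
    norm_num
  · rw [Polynomial.coeff_add, Polynomial.coeff_sub, Polynomial.coeff_C_mul, Polynomial.coeff_C_mul,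
      Polynomial.coeff_X, Polynomial.coeff_X_pow, Polynomial.coeff_one]
    norm_num

lemma factor_eq (W : WeierstrassCurve ℚ) (n : ℕ) (s : ℂ) :
    factor W n s = Run7.h359.EU.fac W n s := by
  funext v
  unfold factor Run7.h359.EU.fac
  rw [(coeffs W v).1, (coeffs W v).2, neg_neg, powerSum_pw]
  rfl

theorem lfun {M k : ℕ} (hA : Wide M) (hR : RankZeroShaTwo M) (hk : Odd k) :
    ∃ Λ : ℂ → ℂ, IsLFunction M k Λ ∧ Λ k ≠ 0 := by
  obtain ⟨F, g1, g2, g3⟩ := Run7.h359.EU.wide hA.1 hA.2.1 (fun p hp =>
    hA.2.2 p (Nat.prime_of_mem_primeFactors hp) (Nat.dvd_of_mem_primeFactors hp)) hR hk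
  refine ⟨F, ⟨g1, fun s hs => ?_⟩, g3⟩
  rw [factor_eq]
  exact g2 s hs

lemma good_zero {M : ℕ} (hM : Wide M) (hR : RankZeroShaTwo M) :
    Run7.h359.WD.GoodW M (fun i : Fin 0 => i.elim0) := by
  intro T
  have hT : T = ∅ := by
    ext i
    exact i.elim0
  refine ⟨M, 1, one_ne_zero, hM, hR, ?_⟩
  rw [hT, Finset.prod_empty]
  ring

lemma of_good {D : ℕ} (hD : Adm D) (h : Good D (fun i : Fin 0 => i.elim0)) : RankZeroShaTwo D := by
  obtain ⟨D', k, hk, h1, h2, h3⟩ := h ∅
  rw [Finset.prod_empty, mul_one] at h3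
  have h4 : k = 1 := by
    have h5 : k * k ∣ D := by
      rw [h3, pow_two]
      exact Dvd.intro_left _ rfl
    exact Nat.isUnit_iff.1 (hD.1 k h5)
  rw [h4, one_pow, mul_one] at h3
  rw [h3]
  exact h2

theorem wide_of_adm {D : ℕ} (h : Adm D) : Wide D :=
  ⟨h.1, h.2.1, fun p hp hd => by rcases h.2.2 p hp hd with h | h <;> omega⟩

theorem formula {M : ℕ} (hM : Wide M) (hR : RankZeroShaTwo M) : Formula M := by
  refine ⟨fun k hk => lfun hM hR hk, fun w hw => ?_⟩
  obtain ⟨h1, h2, κ, κ', h3, h4⟩ := Run7.h359.WD.all_ofW (good_zero hM hR) hw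
  refine ⟨h1, h2, κ, κ', h3, fun k hk => ?_⟩
  obtain ⟨h5, -⟩ := h4 (fun i => i.elim0) fun i => i.elim0
  have hkp : (0 : ℤ) < (k : ℤ) := by exact_mod_cast hk.pos
  have hko : Odd (k : ℤ) := by exact_mod_cast hk
  have h6 := h5 k hkp hko
  have e : GalL w (fun i : Fin 0 => i.elim0) = ⊤ := by
    rw [galL_eq]
    ext σ
    exact ⟨fun _ => trivial, fun _ i => i.elim0⟩
  rw [e] at h6
  exact h6

theorem ofOrder_of {P : ℕ → Prop} {a : ℝ} {X₀ : ℕ} (ha : 0 < a) {G : ℕ → Finset ℕ}
    (h : ∀ X : ℕ, X₀ ≤ X → a * X / Real.sqrt (Real.log X) ≤ ((G X).card : ℝ))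
    (hG : ∀ X D, D ∈ G X → D ∈ Finset.Icc 1 X ∧ Wide D ∧ P D) : OfOrder P := by
  refine ⟨a, X₀, ha, fun X hX => (h X hX).trans (Nat.cast_le.2 (Finset.card_le_card fun D hD => ?_))⟩
  rw [Finset.mem_filter]
  exact hG X D hD

lemma prop_le {P P' : ℕ → Prop} (h : ∀ D, Adm D → P D → P' D) (X : ℕ) : prop P X ≤ prop P' X := by
  unfold prop
  refine div_le_div_of_nonneg_right (Nat.cast_le.2 (Finset.card_le_card fun D hD => ?_))
    (Nat.cast_nonneg _)
  rw [Finset.mem_filter] at hD ⊢
  exact ⟨hD.1, hD.2.1, h D hD.2.1 hD.2.2⟩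

end proof

/-- **The formula of Bloch and Kato for the Hecke characters of all odd weights.** -/
theorem result :
    (∀ M : ℕ, Wide M → RankZeroShaTwo M → Formula M) ∧
    OfOrder (fun M => RankZeroShaTwo M ∧ Formula M) ∧
    AtLeast c (fun M => RankZeroShaTwo M ∧ Formula M) ∧ 0.4194 < c ∧ c < 0.4195 := by
  obtain ⟨-, -, -, h4, h5⟩ := Pool.Agent.Results.MP_787500_nt.AllWeightsMultiquadraticX49.result
  refine ⟨fun M h1 h2 => formula h1 h2, ?_, ?_, h4, h5⟩
  · obtain ⟨a, X₀, ha, h⟩ := Run7.h359.CT.cnt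
    refine ofOrder_of ha h fun X D hD => ?_
    rw [Finset.mem_filter] at hD
    exact ⟨hD.1, hD.2.1, hD.2.2, formula hD.2.1 hD.2.2⟩
  · have hA1 : Adm 1 := ⟨squarefree_one, rfl, fun p hp h => absurd (Nat.dvd_one.1 h) hp.ne_one⟩
    have hI : Ind (fun i : Fin 0 => i.elim0) := by
      rintro T ⟨i, -⟩
      exact i.elim0
    intro x hx
    have h := Pool.Agent.Results.MP_d4aa36_nt.InfiniteTowersCMForms.prop_good (n := 0) hA1
      (fun i => i.elim0) hI (x := x) (by simpa using hx)
    refine h.mono fun X hX => lt_of_lt_of_le hX (prop_le (fun D g1 g2 => ?_) X)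
    rw [one_mul] at g2
    exact ⟨of_good g1 g2, formula (wide_of_adm g1) (of_good g1 g2)⟩

end Pool.Agent.Results.MP_7c08ba_nt.OddWeightsFormula
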